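import Pool.Agent.Helper53.ST.Final

/-!
# Subadditivity of the continuous analytic capacity

For all compact sets `E₁, E₂` in the plane, `α(E₁ ∪ E₂) ≤ α(E₁) + α(E₂)`, where `α` is the
continuous analytic capacity. This answers the question of the problem in the affirmative.
-/

set_option autoImplicit false

open Pool.Agent.Helper53.CAC Pool.Agent.SV

theorem Pool.Agent.Results.MP_f6d4b0_an.Subadditive.result (E₁ E₂ : Set ℂ)
    (h₁ : IsCompact E₁) (h₂ : IsCompact E₂) :
    alpha (E₁ ∪ E₂) ≤ alpha E₁ + alpha E₂ :=
  alpha_subadditive h₁ h₂
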